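import Pool.Agent.K1H14.SD.Stm

/-! Piece STA of project SD (helper14): the structure of `J`. -/

namespace Pool.Agent.K1H24.SD

open Pool.Agent.K1H14.SD

universe u

theorem t_STA (h1 : S_TR.{u}) : S_STA.{u} := by
  intro A _ _ d M st J hcl hadd hsmul hbij hJ
  have hfd : FiniteDimensional ℂ A := (h1 M st hcl).1
  have hst1 : st 1 = 1 := by
    have h := hcl.st_M ∅ (by simp)
    rw [hcl.one] at h
    simpa using h
  have hE : ∀ w w' : A, st (J w) * J w' = st (J 1) * J (st w * w') := by
    intro w w'
    rw [← sub_eq_zero]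
    apply (Module.forall_dual_apply_eq_zero_iff ℂ _).1
    intro μ
    obtain ⟨μ', hμ'⟩ := hJ μ
    have e1 := hμ' w w'
    have e2 := hμ' 1 (st w * w')
    rw [hst1, one_mul, ← e1] at e2
    have e3 := (starRingEnd ℂ).injective e2
    rw [map_sub, e3, sub_self]
  obtain ⟨w0, hw0⟩ := hbij.2 1
  set y := J 1 with hy
  set t := J (st w0 * w0) with ht
  have hyt : st y * t = 1 := by
    have h := hE w0 w0
    rw [hw0, hst1, mul_one] at h
    exact h.symm
  have hty : t * st y = 1 := by
    have e1 : LinearMap.mulLeft ℂ (st y) * LinearMap.mulLeft ℂ t = 1 := by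
      ext x
      simp only [Module.End.mul_apply, LinearMap.mulLeft_apply, Module.End.one_apply]
      rw [← mul_assoc, hyt, one_mul]
    have e2 := mul_eq_one_comm.1 e1
    have e3 := congrArg (fun f => f 1) e2
    simpa [Module.End.mul_apply, LinearMap.mulLeft_apply] using e3
  have hy1 : y * st t = 1 := by
    have h := congrArg st hty
    rw [hcl.st_mul, hcl.st_st, hst1] at h
    exact h
  have hy2 : st t * y = 1 := by
    have h := congrArg st hyt
    rw [hcl.st_mul, hcl.st_st, hst1] at h
    exact h
  set y' := st t with hy'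
  have hJα : ∀ w, J w = J w * y' * y := by
    intro w
    rw [mul_assoc, hy2, mul_one]
  have hα1 : J 1 * y' = 1 := hy1
  have hE' : ∀ w w' : A, st (J w * y') * (J w' * y') = J (st w * w') * y' := by
    intro w w'
    have e1 := hE w w'
    rw [hJα w, hcl.st_mul, hJα w', hJα (st w * w')] at e1
    have e2 : t * (st y * st (J w * y') * (J w' * y' * y)) * y' =
        t * (st y * (J (st w * w') * y' * y)) * y' := by rw [e1]
    have e3 : t * (st y * st (J w * y') * (J w' * y' * y)) * y' =
        (t * st y) * (st (J w * y') * (J w' * y')) * (y * y') := by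
      simp only [mul_assoc]
    have e4 : t * (st y * (J (st w * w') * y' * y)) * y' =
        (t * st y) * (J (st w * w') * y') * (y * y') := by
      simp only [mul_assoc]
    rw [e3, e4, hty, hy1, one_mul, mul_one, one_mul, mul_one] at e2
    exact e2
  have hst : ∀ w, J (st w) * y' = st (J w * y') := by
    intro w
    have e1 := hE' w 1
    rw [hα1, mul_one, mul_one] at e1
    exact e1.symm
  refine ⟨fun w => J w * y', y, y', ⟨?_, ?_, ?_, hα1, ?_, hst⟩, hy1, hy2, hJα⟩
  · intro x z
    show J (x + z) * y' = J x * y' + J z * y'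
    rw [hadd, add_mul]
  · intro c x
    show J (c • x) * y' = (starRingEnd ℂ) c • (J x * y')
    rw [hsmul, smul_mul_assoc]
  · intro x z
    show J (x * z) * y' = J x * y' * (J z * y')
    have e1 := hE' (st x) z
    rw [hcl.st_st, ← hst, hcl.st_st] at e1
    exact e1.symm
  · constructor
    · intro x z hxz
      have e1 : J x * y' = J z * y' := hxz
      apply hbij.1
      rw [hJα x, hJα z, e1]
    · intro z
      obtain ⟨w, hw⟩ := hbij.2 (z * y)
      refine ⟨w, ?_⟩
      show J w * y' = z
      rw [hw, mul_assoc, hy1, mul_one]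

end Pool.Agent.K1H24.SD
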